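import Pool.Agent.TH500.QS.Main

set_option autoImplicit false

namespace Pool.Agent.Results.MP_72d5fb_co.LargerIntersectionBound

open Finset

/-- `B` is (the block set of) a `t-(v,k,lam)` design without repeated blocks on the finite point
set `P`, where `v = |P|`: every block has exactly `k` points, and every `t`-element set of points
lies in exactly `lam` blocks. -/
def IsDesign {P : Type*} [DecidableEq P] (B : Finset (Finset P)) (t k lam : ℕ) : Prop :=
  (∀ b ∈ B, b.card = k) ∧
    ∀ T : Finset P, T.card = t → (B.filter (fun b => T ⊆ b)).card = lam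

/-- The set of block intersection numbers: the sizes of the intersections of two distinct
blocks. -/
def intersectionNumbers {P : Type*} [DecidableEq P] (B : Finset (Finset P)) : Set ℕ :=
  {n | ∃ b₁ ∈ B, ∃ b₂ ∈ B, b₁ ≠ b₂ ∧ (b₁ ∩ b₂).card = n}

/-- **Quasi-symmetric 3-designs.** Let `B` be a quasi-symmetric `3-(v,k,lam)` design without
repeated blocks, `3 ≤ k < v`, with intersection numbers `1 ≤ x < y`. Then `y ≤ x² + x + 3`.
Moreover, if `y ≥ 2 x + 4`, then `lam ≥ x + y`, and the number of blocks through any two points is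
at least `lam + k - x`. -/
theorem result {P : Type*} [Fintype P] [DecidableEq P] (B : Finset (Finset P)) (k lam x y : ℕ)
    (hk : 3 ≤ k) (hkv : k < Fintype.card P) (hD : IsDesign B 3 k lam) (hx : 1 ≤ x) (hxy : x < y)
    (hI : intersectionNumbers B = {x, y}) :
    y ≤ x ^ 2 + x + 3 ∧
      (2 * x + 4 ≤ y → x + y ≤ lam ∧
        ∀ S : Finset P, S.card = 2 → lam + k ≤ (B.filter (fun b => S ⊆ b)).card + x) := by
  have hint : ∀ b₁ ∈ B, ∀ b₂ ∈ B, b₁ ≠ b₂ → (b₁ ∩ b₂).card = x ∨ (b₁ ∩ b₂).card = y := by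
    intro b₁ h₁ b₂ h₂ hne
    have : (b₁ ∩ b₂).card ∈ intersectionNumbers B := ⟨b₁, h₁, b₂, h₂, hne, rfl⟩
    rw [hI] at this
    simpa using this
  have hx1 : ∃ b₁ ∈ B, ∃ b₂ ∈ B, b₁ ≠ b₂ ∧ (b₁ ∩ b₂).card = x := by
    have : x ∈ intersectionNumbers B := by rw [hI]; simp
    exact this
  have hy1 : ∃ b₁ ∈ B, ∃ b₂ ∈ B, b₁ ≠ b₂ ∧ (b₁ ∩ b₂).card = y := by
    have : y ∈ intersectionNumbers B := by rw [hI]; simp
    exact this
  exact Pool.Agent.TH500.QS.main B k lam x y hk hkv hD.1 hD.2 hx hxy hint hx1 hy1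

end Pool.Agent.Results.MP_72d5fb_co.LargerIntersectionBound
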