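import Pool.Agent.TH500.QS.Small2

set_option autoImplicit false

namespace Pool.Agent.Results.MP_72d5fb_co.SmallerNumberTwoThree

open Finset

/-- `B` is (the block set of) a `t-(v,k,lam)` design without repeated blocks on the finite point
set `P`, where `v = |P|`: every block has exactly `k` points, and every `t`-element set of points
lies in exactly `lam` blocks. -/
def IsDesign {P : Type*} [DecidableEq P] (B : Finset (Finset P)) (t k lam : ℕ) : Prop :=
  (∀ b ∈ B, b.card = k) ∧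
    ∀ T : Finset P, T.card = t → (B.filter (fun b => T ⊆ b)).card = lam

/-- The set of block intersection numbers: the sizes of the intersections of two distinct
blocks. -/
def intersectionNumbers {P : Type*} [DecidableEq P] (B : Finset (Finset P)) : Set ℕ :=
  {n | ∃ b₁ ∈ B, ∃ b₂ ∈ B, b₁ ≠ b₂ ∧ (b₁ ∩ b₂).card = n}

/-- There is no nontrivial (`3 < k < v - 3`) quasi-symmetric `3-(v,k,lam)` design without repeated
blocks whose smaller intersection number is `2` or `3`. -/
theorem result {P : Type*} [Fintype P] [DecidableEq P] (B : Finset (Finset P)) (k lam x y : ℕ)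
    (hk : 3 < k) (hkv : k + 3 < Fintype.card P) (hD : IsDesign B 3 k lam) (hxy : x < y)
    (hI : intersectionNumbers B = {x, y}) : x ≠ 2 ∧ x ≠ 3 := by
  have hint : ∀ b₁ ∈ B, ∀ b₂ ∈ B, b₁ ≠ b₂ → (b₁ ∩ b₂).card = x ∨ (b₁ ∩ b₂).card = y := by
    intro b₁ h₁ b₂ h₂ hne
    have : (b₁ ∩ b₂).card ∈ intersectionNumbers B := ⟨b₁, h₁, b₂, h₂, hne, rfl⟩
    rw [hI] at this
    simpa using this
  have hx1 : ∃ b₁ ∈ B, ∃ b₂ ∈ B, b₁ ≠ b₂ ∧ (b₁ ∩ b₂).card = x := by
    have : x ∈ intersectionNumbers B := by rw [hI]; simp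
    exact this
  have hy1 : ∃ b₁ ∈ B, ∃ b₂ ∈ B, b₁ ≠ b₂ ∧ (b₁ ∩ b₂).card = y := by
    have : y ∈ intersectionNumbers B := by rw [hI]; simp
    exact this
  have hno : ¬ (x = 2 ∨ x = 3) := fun hx =>
    Pool.Agent.TH500.QS.no_small B k lam x y hx hk hkv hD.1 hD.2 hxy hint hx1 hy1
  exact ⟨fun h => hno (Or.inl h), fun h => hno (Or.inr h)⟩

end Pool.Agent.Results.MP_72d5fb_co.SmallerNumberTwoThree
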